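import Pool.Agent.KS6_38.WR.Wr
import Pool.Graph.R_seed8.Y328.CR.Fam

/-!
Wreath products with the integers act by compactly supported diffeomorphisms.
-/

set_option autoImplicit false

open Set Function
open scoped ContDiff

namespace Pool.Agent.KS6_38.WR

open U
open Pool.Agent.W331.CR (CS)

section comb

variable {K : Type*} [Group K] (T : ℝ ≃o ℝ) (J : Set ℝ) (θ : K →* (ℝ ≃o ℝ))

/-- `F` is the homeomorphism of `u` -/
def PP (u : U K) (F : ℝ ≃o ℝ) : Prop :=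
  (∀ x ∈ J, ∀ j : ℤ, F ((T ^ j) x) = (T ^ (j + u.n)) (θ (u.f (j + u.n)) x)) ∧
    ∀ x, (∀ j : ℤ, (T ^ j) x ∉ J) → F x = (T ^ u.n) x

variable {T J θ}

lemma zpow_app (T : ℝ ≃o ℝ) (i j : ℤ) (x : ℝ) : (T ^ i) ((T ^ j) x) = (T ^ (i + j)) x := by
  rw [zpow_add]; rfl

lemma zpow_zero_app (T : ℝ ≃o ℝ) (x : ℝ) : (T ^ (0 : ℤ)) x = x := by
  rw [zpow_zero]; rfl

variable (hdis : ∀ x ∈ J, ∀ n : ℤ, n ≠ 0 → (T ^ n) x ∉ J) (hθ : ∀ k : K, ∀ x, x ∉ J → θ k x = x)

include hθ in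
lemma th_mem (k : K) {x : ℝ} (hx : x ∈ J) : θ k x ∈ J := by
  by_contra h
  have h1 := hθ k⁻¹ _ h
  have h2 : θ k⁻¹ (θ k x) = x := by
    show (θ k⁻¹ * θ k) x = x
    rw [← map_mul, inv_mul_cancel, map_one]; rfl
  rw [h2] at h1
  rw [← h1] at h
  exact h hx

include hθ in
lemma PP_mul {u v : U K} {F G : ℝ ≃o ℝ} (hu : PP T J θ u F) (hv : PP T J θ v G) :
    PP T J θ (u * v) (F * G) := by
  constructor
  · intro x hx j
    show F (G ((T ^ j) x)) = _
    rw [hv.1 x hx j, hu.1 _ (th_mem hθ _ hx)]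
    have e1 : j + (u * v).n = j + v.n + u.n := by rw [mul_n]; ring
    rw [e1, mul_f, show j + v.n + u.n - u.n = j + v.n by ring, map_mul]
    rfl
  · intro x hx
    show F (G x) = _
    rw [hv.2 x hx, hu.2 _ (fun j => by rw [zpow_app]; exact hx _), zpow_app, mul_n]

lemma PP_one : PP T J θ 1 1 := by
  constructor
  · intro x hx j
    rw [one_n, one_f, map_one, add_zero]
    rfl
  · intro x hx
    rw [one_n, zpow_zero]

include hθ in
lemma PP_inv {u : U K} {F : ℝ ≃o ℝ} (hu : PP T J θ u F) : PP T J θ u⁻¹ F⁻¹ := by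
  have hinv : ∀ x y, F y = x → (F⁻¹ : ℝ ≃o ℝ) x = y := by
    intro x y h
    rw [← h]
    show (F⁻¹ * F) y = y
    rw [inv_mul_cancel]; rfl
  constructor
  · intro x hx j
    apply hinv
    rw [hu.1 _ (th_mem hθ _ hx)]
    have e1 : j + (u⁻¹).n + u.n = j := by rw [inv_n]; ring
    rw [e1, inv_f, e1, map_inv]
    congr 1
    show (θ (u.f j) * (θ (u.f j))⁻¹) x = x
    rw [mul_inv_cancel]; rfl
  · intro x hx
    apply hinv
    rw [hu.2 _ (fun j => by rw [zpow_app]; exact hx _), zpow_app, inv_n, add_neg_cancel,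
      zpow_zero_app]

include hdis hθ in
lemma PP_kap (k : K) : PP T J θ (kap k) (θ k) := by
  constructor
  · intro x hx j
    rw [kap_n, add_zero, kap_f]
    by_cases hj : j = 0
    · subst hj
      rw [if_pos rfl, zpow_zero_app, zpow_zero_app]
    · rw [if_neg hj, map_one, hθ k _ (hdis x hx j hj)]
      rfl
  · intro x hx
    rw [kap_n, zpow_zero_app]
    apply hθ
    have := hx 0
    rwa [zpow_zero_app] at this

lemma PP_tt : PP T J θ tt T := by
  constructor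
  · intro x hx j
    show T ((T ^ j) x) = (T ^ (j + 1)) (θ 1 x)
    rw [map_one, add_comm, zpow_add, zpow_one]
    rfl
  · intro x hx
    show T x = (T ^ (1 : ℤ)) x
    rw [zpow_one]

lemma PP_eq_one {F : ℝ ≃o ℝ} (h : PP T J θ 1 F) : F = 1 := by
  ext z
  by_cases hz : ∀ j : ℤ, (T ^ j) z ∉ J
  · rw [h.2 z hz, one_n, zpow_zero_app]
    rfl
  · push Not at hz
    obtain ⟨j, hj⟩ := hz
    have h1 := h.1 _ hj (-j)
    rw [zpow_app, neg_add_cancel, zpow_zero_app, one_n, one_f, map_one, add_zero] at h1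
    rw [h1]
    show (T ^ (-j)) ((T ^ j) z) = z
    rw [zpow_app, neg_add_cancel, zpow_zero_app]

include hdis hθ in
lemma one_of_PP {u : U K} (hinj : Injective θ) (hJ : J.Nonempty) (h : PP T J θ u 1) : u = 1 := by
  have hn : u.n = 0 := by
    by_contra hn
    obtain ⟨x, hx⟩ := hJ
    have h1 := h.1 x hx (-u.n)
    rw [neg_add_cancel, zpow_zero_app] at h1
    have h2 : (T ^ (-u.n)) x = θ (u.f 0) x := h1
    exact hdis x hx (-u.n) (by simpa using hn) (by rw [h2]; exact th_mem hθ _ hx)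
  ext i
  · rw [one_f]
    apply hinj
    rw [map_one]
    ext x
    by_cases hx : x ∈ J
    · have h1 := h.1 x hx i
      rw [hn, add_zero] at h1
      have h2 : (T ^ i) x = (T ^ i) (θ (u.f i) x) := h1
      exact ((T ^ i : ℝ ≃o ℝ).injective h2).symm
    · rw [hθ _ x hx]; rfl
  · rw [hn, one_n]

end comb

/-- the wreath product acts if the group acts -/
theorem emb_W (r : WithTop ℕ∞) {K : Type*} [Group K] [Nontrivial K]
    (h : ∃ φ : K →* CS r, Injective φ) : ∃ φ : W K →* CS r, Injective φ := by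
  obtain ⟨φ, hφ⟩ := h
  -- an element moving a point to the right
  obtain ⟨T, hT, p, hp⟩ : ∃ T : ℝ ≃o ℝ, T ∈ CS r ∧ ∃ p, p < T p := by
    obtain ⟨y, hy⟩ := exists_ne (1 : K)
    have h1 : (φ y : ℝ ≃o ℝ) ≠ 1 := by
      intro h
      apply hy
      apply hφ
      rw [map_one]
      exact Subtype.ext h
    obtain ⟨p, hp⟩ : ∃ p, (φ y : ℝ ≃o ℝ) p ≠ p := by
      by_contra hcon
      push Not at hcon
      apply h1
      ext p
      exact hcon p
    rcases lt_or_gt_of_ne hp with h2 | h2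
    · refine ⟨(φ y : ℝ ≃o ℝ)⁻¹, inv_mem (φ y).2, p, ?_⟩
      have h3 := ((φ y : ℝ ≃o ℝ)⁻¹ : ℝ ≃o ℝ).strictMono h2
      have h4 : ((φ y : ℝ ≃o ℝ)⁻¹ : ℝ ≃o ℝ) ((φ y : ℝ ≃o ℝ) p) = p := by
        show ((φ y : ℝ ≃o ℝ)⁻¹ * (φ y : ℝ ≃o ℝ)) p = p
        rw [inv_mul_cancel]; rfl
      rwa [h4] at h3
    · exact ⟨φ y, (φ y).2, p, h2⟩
  have hpI : p ∈ Ioo (1/4 : ℝ) (3/4) := by
    by_contra hcon
    have := hT.1 p hcon
    linarith
  have hTp : T p < 3 / 4 := by
    have h1 : T (3/4) = 3/4 := hT.1 _ (fun h => lt_irrefl _ h.2)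
    have h2 := T.strictMono hpI.2
    linarith
  set c : ℝ := 2 * (T p - p) with hc
  have hc0 : 0 < c := by rw [hc]; linarith
  -- the affine map taking `(1/4, 3/4)` to `J`
  let A : ℝ ≃o ℝ := StrictMono.orderIsoOfRightInverse (fun x => p + (x - 1/4) * c)
    (by intro x y hxy; simp only; nlinarith) (fun y => 1/4 + (y - p) / c)
    (by intro y; simp only; field_simp; ring)
  have hA : ∀ x, A x = p + (x - 1/4) * c := fun x => rfl
  have hAi : ∀ x, (A⁻¹ : ℝ ≃o ℝ) x = 1/4 + (x - p) / c := fun x => rfl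
  let θ : K →* (ℝ ≃o ℝ) := (MulAut.conj A).toMonoidHom.comp ((CS r).subtype.comp φ)
  have hθd : ∀ k x, θ k x = A ((φ k : ℝ ≃o ℝ) ((A⁻¹ : ℝ ≃o ℝ) x)) := fun k x => rfl
  set J : Set ℝ := Ioo p (T p) with hJ
  have hθ : ∀ k : K, ∀ x, x ∉ J → θ k x = x := by
    intro k x hx
    have h1 : (A⁻¹ : ℝ ≃o ℝ) x ∉ Ioo (1/4 : ℝ) (3/4) := by
      intro h2
      apply hx
      rw [hAi] at h2
      have h3 : 0 < (x - p) / c := by linarith [h2.1]
      have h4 : (x - p) / c < 1/2 := by linarith [h2.2]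
      have h5 : 0 < x - p := by
        by_contra hcon
        push Not at hcon
        have := div_nonpos_of_nonpos_of_nonneg hcon hc0.le
        linarith
      have h6 : x - p < 1/2 * c := (div_lt_iff₀ hc0).1 h4
      exact ⟨by linarith, by rw [hc] at h6; linarith⟩
    rw [hθd, (φ k).2.1 _ h1]
    show (A * A⁻¹) x = x
    rw [mul_inv_cancel]; rfl
  have hθinj : Injective θ := by
    intro x y hxy
    apply hφ
    apply Subtype.ext
    exact (MulAut.conj A).injective hxy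
  have hsm : ∀ F : ℝ ≃o ℝ, ContDiff ℝ r F → ContDiff ℝ r (A * F * A⁻¹ : ℝ ≃o ℝ) := by
    intro F hF
    have e1 : ((A * F * A⁻¹ : ℝ ≃o ℝ) : ℝ → ℝ) = fun x => p + (F (1/4 + (x - p) / c) - 1/4) * c := by
      funext x; rfl
    rw [e1]
    have h2 : ContDiff ℝ r (fun x : ℝ => 1/4 + (x - p) / c) := by fun_prop
    have h3 := hF.comp h2
    have h4 : ContDiff ℝ r (fun x : ℝ => F (1/4 + (x - p) / c)) := h3
    fun_prop
  have hθmem : ∀ k, θ k ∈ CS r := by
    intro k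
    refine ⟨fun x hx => hθ k x (fun h => hx ⟨hpI.1.trans h.1, h.2.trans hTp⟩), ?_, ?_⟩
    · exact hsm _ (φ k).2.2.1
    · have e2 : (θ k)⁻¹ = A * (φ k : ℝ ≃o ℝ)⁻¹ * A⁻¹ := by
        show (A * (φ k : ℝ ≃o ℝ) * A⁻¹)⁻¹ = _
        group
      rw [e2]
      exact hsm _ (φ k).2.2.2
  have hdis : ∀ x ∈ J, ∀ n : ℤ, n ≠ 0 → (T ^ n) x ∉ J := by
    have key : ∀ x ∈ J, ∀ n : ℕ, T p < (T ^ (n + 1)) x := by
      intro x hx n
      induction n with
      | zero =>
        rw [zero_add, pow_one]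
        exact T.strictMono hx.1
      | succ n ih =>
        have e : (T ^ (n + 1 + 1)) x = T ((T ^ (n + 1)) x) := by rw [pow_succ']; rfl
        rw [e]
        exact T.strictMono (hp.trans ih)
    intro x hx n hn hcon
    rcases lt_or_gt_of_ne hn with h | h
    · obtain ⟨m, rfl⟩ : ∃ m : ℕ, n = -((m + 1 : ℕ) : ℤ) := ⟨(-n).toNat - 1, by omega⟩
      have h1 := key _ hcon m
      have e : (T ^ (m + 1)) ((T ^ (-((m + 1 : ℕ) : ℤ))) x) = x := by
        rw [← zpow_natCast T (m + 1), zpow_app, add_neg_cancel, zpow_zero_app]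
      rw [e] at h1
      exact absurd hx.2 (not_lt.2 h1.le)
    · obtain ⟨m, rfl⟩ : ∃ m : ℕ, n = ((m + 1 : ℕ) : ℤ) := ⟨n.toNat - 1, by omega⟩
      have h1 := key x hx m
      rw [zpow_natCast] at hcon
      exact absurd hcon.2 (not_lt.2 h1.le)
  have hJne : J.Nonempty := ⟨(p + T p) / 2, by constructor <;> linarith⟩
  -- existence
  have ex : ∀ u ∈ W K, ∃ F : ℝ ≃o ℝ, F ∈ CS r ∧ PP T J θ u F := by
    intro u hu
    induction hu using Subgroup.closure_induction with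
    | mem x hx =>
      rcases hx with ⟨k, rfl⟩ | hx
      · exact ⟨θ k, hθmem k, PP_kap hdis hθ k⟩
      · rw [Set.mem_singleton_iff] at hx
        subst hx
        exact ⟨T, hT, PP_tt⟩
    | one => exact ⟨1, one_mem _, PP_one⟩
    | mul x y _ _ hx hy =>
      obtain ⟨F, hF, hF2⟩ := hx
      obtain ⟨G, hG, hG2⟩ := hy
      exact ⟨F * G, mul_mem hF hG, PP_mul hθ hF2 hG2⟩
    | inv x _ hx =>
      obtain ⟨F, hF, hF2⟩ := hx
      exact ⟨F⁻¹, inv_mem hF, PP_inv hθ hF2⟩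
  have uniq : ∀ (u : U K) (F G : ℝ ≃o ℝ), PP T J θ u F → PP T J θ u G → F = G := by
    intro u F G hF hG
    have h1 := PP_mul hθ hF (PP_inv hθ hG)
    rw [mul_inv_cancel] at h1
    exact mul_inv_eq_one.1 (PP_eq_one h1)
  choose Φ hΦ1 hΦ2 using ex
  refine ⟨MonoidHom.mk' (fun u : W K => (⟨Φ u u.2, hΦ1 u u.2⟩ : CS r)) ?_, ?_⟩
  · intro u v
    apply Subtype.ext
    exact uniq _ _ _ (hΦ2 _ _) (PP_mul hθ (hΦ2 _ _) (hΦ2 _ _))
  · rw [injective_iff_map_eq_one]
    intro u hu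
    have h1 : Φ u u.2 = 1 := congrArg Subtype.val hu
    have h2 := hΦ2 u u.2
    rw [h1] at h2
    exact Subtype.ext (one_of_PP hdis hθ hθinj hJne h2)

end Pool.Agent.KS6_38.WR
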