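import Mathlib

/-!
Restricted wreath products with the integers, generated inside the unrestricted one; diagonal copies
of the base group in all subgroups of finite index.
-/

set_option autoImplicit false

open Function

namespace Pool.Agent.KS6_38.WR

/-- the unrestricted wreath product of `K` with the integers -/
@[ext] structure U (K : Type*) where
  f : ℤ → K
  n : ℤ

namespace U

variable {K : Type*} [Group K]

instance : Mul (U K) := ⟨fun a b => ⟨fun i => a.f i * b.f (i - a.n), a.n + b.n⟩⟩

instance : One (U K) := ⟨⟨fun _ => 1, 0⟩⟩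

instance : Inv (U K) := ⟨fun a => ⟨fun i => (a.f (i + a.n))⁻¹, -a.n⟩⟩

lemma mul_f (a b : U K) (i : ℤ) : (a * b).f i = a.f i * b.f (i - a.n) := rfl
lemma mul_n (a b : U K) : (a * b).n = a.n + b.n := rfl
lemma one_f (i : ℤ) : (1 : U K).f i = 1 := rfl
lemma one_n : (1 : U K).n = 0 := rfl
lemma inv_f (a : U K) (i : ℤ) : (a⁻¹).f i = (a.f (i + a.n))⁻¹ := rfl
lemma inv_n (a : U K) : (a⁻¹).n = -a.n := rfl

instance : Group (U K) where
  mul_assoc a b c := by
    ext i
    · simp only [mul_f, mul_n, mul_assoc]
      congr 3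
      ring
    · simp only [mul_n]; ring
  one_mul a := by
    ext i
    · simp only [mul_f, one_f, one_n, one_mul, sub_zero]
    · simp only [mul_n, one_n, zero_add]
  mul_one a := by
    ext i
    · simp only [mul_f, one_f, mul_one]
    · simp only [mul_n, one_n, add_zero]
  inv_mul_cancel a := by
    ext i
    · simp only [mul_f, inv_f, inv_n, one_f, sub_neg_eq_add, inv_mul_cancel]
    · simp only [mul_n, inv_n, one_n, neg_add_cancel]

/-- the copy of `K` at coordinate `0` -/
def kap : K →* U K where
  toFun x := ⟨fun i => if i = 0 then x else 1, 0⟩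
  map_one' := by
    ext i
    · show (if i = 0 then (1 : K) else 1) = 1
      simp
    · rfl
  map_mul' x y := by
    ext i
    · show (if i = 0 then x * y else 1) = (if i = 0 then x else 1) * (if i - 0 = 0 then y else 1)
      rw [sub_zero]
      split_ifs <;> simp
    · show (0 : ℤ) = 0 + 0
      simp

lemma kap_f (x : K) (i : ℤ) : (kap x).f i = if i = 0 then x else 1 := rfl
lemma kap_n (x : K) : (kap x).n = 0 := rfl

/-- the shift -/
def tt : U K := ⟨fun _ => 1, 1⟩

lemma tt_pow (m : ℕ) : (tt : U K) ^ m = ⟨fun _ => 1, m⟩ := by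
  induction m with
  | zero => rfl
  | succ m ih =>
    rw [pow_succ, ih]
    ext i
    · show (1 : K) * 1 = 1
      simp
    · show (m : ℤ) + 1 = ((m + 1 : ℕ) : ℤ)
      push_cast; ring

lemma conj_eq (m : ℕ) (x : K) :
    (tt : U K) ^ m * kap x * ((tt : U K) ^ m)⁻¹ = ⟨fun i => if i = m then x else 1, 0⟩ := by
  rw [tt_pow]
  ext i
  · rw [mul_f, mul_f, inv_f, kap_f]
    show 1 * (if i - (m : ℤ) = 0 then x else 1) * (1 : K)⁻¹ = if i = m then x else 1
    rw [one_mul, inv_one, mul_one]
    congr 1
    rw [sub_eq_zero]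
  · rw [mul_n, mul_n, inv_n, kap_n]
    show (m : ℤ) + 0 + -(m : ℤ) = 0
    ring

end U

open U

/-- the restricted wreath product of `K` with the integers, as the subgroup generated by the copy of
`K` at coordinate `0` and the shift -/
def W (K : Type*) [Group K] : Subgroup (U K) := Subgroup.closure (Set.range (kap : K → U K) ∪ {tt})

variable {K : Type*} [Group K]

lemma kap_mem (x : K) : kap x ∈ W K := Subgroup.subset_closure (Or.inl ⟨x, rfl⟩)

lemma tt_mem : (tt : U K) ∈ W K := Subgroup.subset_closure (Or.inr rfl)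

theorem fg_W (h : Group.FG K) : Group.FG (W K) := by
  obtain ⟨S, hS⟩ := Group.fg_def.1 h
  rw [Group.fg_iff_subgroup_fg]
  classical
  refine ⟨S.image (kap : K → U K) ∪ {tt}, ?_⟩
  apply le_antisymm
  · rw [Subgroup.closure_le]
    intro x hx
    simp only [Finset.coe_union, Finset.coe_image, Finset.coe_singleton, Set.mem_union,
      Set.mem_image, Set.mem_singleton_iff] at hx
    rcases hx with ⟨y, -, rfl⟩ | rfl
    · exact kap_mem y
    · exact tt_mem
  · unfold W
    rw [Subgroup.closure_le]
    rintro x (⟨y, rfl⟩ | hx)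
    · have h1 : y ∈ Subgroup.closure (S : Set K) := by rw [hS]; trivial
      have h2 : kap y ∈ (Subgroup.closure (S : Set K)).map (kap : K →* U K) := ⟨y, h1, rfl⟩
      rw [MonoidHom.map_closure] at h2
      refine Subgroup.closure_mono ?_ h2
      intro z hz
      simp only [Finset.coe_union, Finset.coe_image, Finset.coe_singleton]
      exact Or.inl hz
    · rw [Set.mem_singleton_iff] at hx
      subst hx
      exact Subgroup.subset_closure (by simp)

/-- the copy of `K` at coordinate `0`, in `W K` -/
def kW : K →* W K := (kap : K →* U K).codRestrict (W K) kap_mem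

/-- the shift in `W K` -/
def tW : W K := ⟨tt, tt_mem⟩

/-- diagonal elements -/
def dW (d : ℕ) : ℕ → K → W K
  | 0, _ => 1
  | c + 1, x => dW d c x * (tW ^ (c * d) * kW x * (tW ^ (c * d))⁻¹)

lemma dW_coe (d : ℕ) (hd : 0 < d) (c : ℕ) (x : K) :
    ((dW d c x : W K) : U K) = ⟨fun i => if ∃ a : ℕ, a < c ∧ i = ((a * d : ℕ) : ℤ) then x else 1, 0⟩ := by
  induction c with
  | zero =>
    ext i
    · show (1 : K) = if ∃ a : ℕ, a < 0 ∧ i = ((a * d : ℕ) : ℤ) then x else 1
      rw [if_neg]
      rintro ⟨a, ha, -⟩
      omega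
    · rfl
  | succ c ih =>
    show ((dW d c x : W K) : U K) * (tt ^ (c * d) * kap x * (tt ^ (c * d))⁻¹) = _
    rw [ih, conj_eq]
    ext i
    · rw [mul_f]
      show (if ∃ a : ℕ, a < c ∧ i = ((a * d : ℕ) : ℤ) then x else 1) *
        (if i - 0 = ((c * d : ℕ) : ℤ) then x else 1) =
        (if ∃ a : ℕ, a < c + 1 ∧ i = ((a * d : ℕ) : ℤ) then x else 1)
      rw [sub_zero]
      by_cases h1 : i = ((c * d : ℕ) : ℤ)
      · have h2 : ¬ ∃ a : ℕ, a < c ∧ i = ((a * d : ℕ) : ℤ) := by
          rintro ⟨a, ha, h3⟩
          rw [h1] at h3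
          have h4 : c * d = a * d := by exact_mod_cast h3
          have := Nat.eq_of_mul_eq_mul_right hd h4
          omega
        rw [if_neg h2, if_pos h1, if_pos ⟨c, Nat.lt_succ_self c, h1⟩, one_mul]
      · rw [if_neg h1, mul_one]
        congr 1
        apply propext
        constructor
        · rintro ⟨a, ha, h3⟩
          exact ⟨a, by omega, h3⟩
        · rintro ⟨a, ha, h3⟩
          refine ⟨a, ?_, h3⟩
          rcases Nat.lt_succ_iff_lt_or_eq.1 ha with h | h
          · exact h
          · subst h
            exact absurd h3 h1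
    · show (0 : ℤ) + 0 = 0
      simp

/-- the diagonal copies of `K` -/
def dHom (d : ℕ) (hd : 0 < d) : K →* W K where
  toFun := dW d d
  map_one' := by
    apply Subtype.ext
    rw [dW_coe d hd]
    ext i
    · show (if _ then (1 : K) else 1) = 1
      simp
    · rfl
  map_mul' x y := by
    apply Subtype.ext
    rw [Subgroup.coe_mul, dW_coe d hd, dW_coe d hd, dW_coe d hd]
    ext i
    · rw [mul_f]
      show (if ∃ a : ℕ, a < d ∧ i = ((a * d : ℕ) : ℤ) then x * y else 1) =
        (if ∃ a : ℕ, a < d ∧ i = ((a * d : ℕ) : ℤ) then x else 1) *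
        (if ∃ a : ℕ, a < d ∧ i - 0 = ((a * d : ℕ) : ℤ) then y else 1)
      rw [sub_zero]
      split_ifs <;> simp
    · show (0 : ℤ) = 0 + 0
      simp

lemma dHom_injective (d : ℕ) (hd : 0 < d) : Injective (dHom d hd : K →* W K) := by
  intro x y h
  have h1 : ((dW d d x : W K) : U K) = ((dW d d y : W K) : U K) := congrArg Subtype.val h
  rw [dW_coe d hd, dW_coe d hd] at h1
  have h2 := congrFun (congrArg U.f h1) 0
  have h3 : ∃ a : ℕ, a < d ∧ (0 : ℤ) = ((a * d : ℕ) : ℤ) := ⟨0, hd, by simp⟩
  simpa only [if_pos h3] using h2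

/-- every subgroup of finite index of the wreath product contains a copy of `K` -/
theorem exists_copy (H : Subgroup (W K)) (hH : H.FiniteIndex) : ∃ δ : K →* H, Injective δ := by
  have := hH
  let N := H.normalCore
  have : Finite (W K ⧸ N) := Subgroup.finite_quotient_of_finiteIndex
  let q : W K →* W K ⧸ N := QuotientGroup.mk' N
  set d := Nat.card (W K ⧸ N) with hd
  have hd0 : 0 < d := Nat.card_pos
  have ht : ∀ c : ℕ, q (tW ^ (c * d)) = 1 := by
    intro c
    rw [map_pow, mul_comm, pow_mul, hd, pow_card_eq_one', one_pow]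
  have key : ∀ (c : ℕ) (x : K), q (dW d c x) = (q (kW x)) ^ c := by
    intro c x
    induction c with
    | zero => rw [pow_zero]; exact map_one q
    | succ c ih =>
      have e : dW d (c + 1) x = dW d c x * (tW ^ (c * d) * kW x * (tW ^ (c * d))⁻¹) := rfl
      rw [e, map_mul, ih, map_mul, map_mul, map_inv, ht, one_mul, inv_one, mul_one, pow_succ]
  have hmem : ∀ x : K, dHom d hd0 x ∈ H := by
    intro x
    apply H.normalCore_le
    have h1 : q (dW d d x) = 1 := by
      rw [key, hd, pow_card_eq_one']
    exact (QuotientGroup.eq_one_iff _).1 h1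
  refine ⟨(dHom d hd0).codRestrict H hmem, ?_⟩
  intro x y h
  exact dHom_injective d hd0 (congrArg Subtype.val h)

/-- the base group embeds -/
theorem kW_injective : Injective (kW : K →* W K) := by
  intro x y h
  have h1 : (kap x : U K) = kap y := congrArg Subtype.val h
  have h2 := congrFun (congrArg U.f h1) 0
  simpa [kap_f] using h2

end Pool.Agent.KS6_38.WR
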